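import Pool.Agent.L0h98.GS.Def
import Pool.Agent.N400.LF_LOW
import Pool.Agent.N404.LF.Fact

/-!
# GS/LOWM: balanced colourings: many configurations without conflict
(adapted from `Pool/Agent/N400/LF_LOW.lean`)
-/

set_option autoImplicit false

namespace Pool.Agent.L0h60.GS

open Finset Classical
open Pool.Agent.N404.LF (cnt Bal proof_FACT)
open Pool.Agent.N400.LFLOW (cnt_card Sp card_fst card_snd card_Sp cnt_prod)
open Pool.Agent.L0h98.GS

/-- a permutation matching the fibres -/
theorem exists_match {X : Type} [Fintype X] {ι : Type} (F F' : X → ι)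
    (h : ∀ i, cnt F i = cnt F' i) : ∃ r : Equiv.Perm X, ∀ x, F (r x) = F' x := by
  have h1 : ∀ i, Nonempty ({x // F' x = i} ≃ {x // F x = i}) := by
    intro i
    refine ⟨Fintype.equivOfCardEq ?_⟩
    rw [← Nat.card_eq_fintype_card, ← Nat.card_eq_fintype_card, cnt_card, cnt_card]
    exact (h i).symm
  exact ⟨Equiv.ofFiberEquiv (fun i => (h1 i).some), fun x => Equiv.ofFiberEquiv_map _ x⟩

theorem count_stab {X : Type} [Fintype X] [DecidableEq X] {ι : Type} [Fintype ι] (F : X → ι)
    [DecidablePred fun g : Equiv.Perm X => ∀ x, F (g x) = F x] :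
    (univ.filter fun g : Equiv.Perm X => ∀ x, F (g x) = F x).card =
      ∏ i, (cnt F i).factorial := by
  have h := DomMulAct.stabilizer_card F
  have h1 : (univ.filter fun g : Equiv.Perm X => ∀ x, F (g x) = F x).card =
      Nat.card {g : Equiv.Perm X // F ∘ g = F} := by
    rw [Nat.card_eq_fintype_card, Fintype.card_subtype]
    congr 1
    ext g
    simp only [mem_filter, mem_univ, true_and]
    exact ⟨fun h => funext h, fun h x => congrFun h x⟩
  rw [h1, Nat.card_eq_fintype_card, h]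
  refine Finset.prod_congr rfl fun i _ => ?_
  rw [← cnt_card, Nat.card_eq_fintype_card]

theorem count_match {X : Type} [Fintype X] [DecidableEq X] {ι : Type} [Fintype ι] (F F' : X → ι)
    (h : ∃ r : Equiv.Perm X, ∀ x, F (r x) = F' x)
    [DecidablePred fun r : Equiv.Perm X => ∀ x, F (r x) = F' x] :
    (univ.filter fun r : Equiv.Perm X => ∀ x, F (r x) = F' x).card =
      ∏ i, (cnt F i).factorial := by
  obtain ⟨r0, hr0⟩ := h
  rw [← count_stab]
  refine Finset.card_nbij' (fun r => r * r0⁻¹) (fun g => g * r0) ?_ ?_ ?_ ?_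
  · intro r hr
    rw [Finset.mem_coe, mem_filter] at hr ⊢
    refine ⟨mem_univ _, fun x => ?_⟩
    rw [Equiv.Perm.mul_apply, hr.2, ← hr0]
    congr 1
    exact r0.apply_symm_apply x
  · intro g hg
    rw [Finset.mem_coe, mem_filter] at hg ⊢
    refine ⟨mem_univ _, fun x => ?_⟩
    rw [Equiv.Perm.mul_apply, hg.2, hr0]
  · intro r _
    simp
  · intro g _
    simp

/-- the word given by the pairs `h i` -/
def word {k m : ℕ} (h : Fin m → Sp k) (x : Hf m) : Fin k :=
  if x.2 then (h x.1).1.2 else (h x.1).1.1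

theorem cnt_word {k m : ℕ} (h : Fin m → Sp k) (c : Fin k) :
    cnt (word h) c = cnt (fun i => (h i).1.1) c + cnt (fun i => (h i).1.2) c := by
  rw [← cnt_card, ← cnt_card, ← cnt_card, ← Nat.card_sum]
  refine Nat.card_congr ?_
  exact
    { toFun := fun x => match x with
        | ⟨(i, false), hx⟩ => Sum.inl ⟨i, hx⟩
        | ⟨(i, true), hx⟩ => Sum.inr ⟨i, hx⟩
      invFun := fun y => match y with
        | Sum.inl i => ⟨(i.1, false), i.2⟩
        | Sum.inr i => ⟨(i.1, true), i.2⟩
      left_inv := by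
        rintro ⟨⟨i, b⟩, hx⟩
        cases b <;> rfl
      right_inv := by
        rintro (i | i) <;> rfl }

theorem key (k M m : ℕ) (hk : 2 ≤ k) (hN : m = k * (k - 1) * M) (f : Hf m → Fin k)
    (hf : Bal f) :
    m.factorial * ((2 * (k - 1) * M).factorial) ^ k ≤ M.factorial ^ (k * (k - 1)) *
      (univ.filter fun π : Equiv.Perm (Hf m) =>
        ∀ i, f (π (i, false)) ≠ f (π (i, true))).card := by
  have hk0 : 0 < k := by omega
  have e : Nonempty (Fin m ≃ Sp k × Fin M) := by
    refine ⟨Fintype.equivOfCardEq ?_⟩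
    rw [Fintype.card_prod, Fintype.card_fin, Fintype.card_fin, ← Nat.card_eq_fintype_card, card_Sp,
      hN]
  obtain ⟨e⟩ := e
  set h : Fin m → Sp k := fun x => (e x).1 with hh
  have hc : ∀ p, cnt h p = M := by
    intro p
    have h1 := cnt_prod e (fun q => q) p
    rw [show Nat.card {q : Sp k // q = p} = 1 from by simp, one_mul] at h1
    exact h1
  have hc1 : ∀ c, cnt (fun x => (h x).1.1) c = (k - 1) * M := by
    intro c
    have h1 := cnt_prod e (fun q => q.1.1) c
    rw [card_fst] at h1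
    exact h1
  have hc2 : ∀ c, cnt (fun x => (h x).1.2) c = (k - 1) * M := by
    intro c
    have h1 := cnt_prod e (fun q => q.1.2) c
    rw [card_snd] at h1
    exact h1
  have hcw : ∀ (w : Equiv.Perm (Fin m)) (c : Fin k),
      cnt (word fun i => h (w i)) c = 2 * (k - 1) * M := by
    intro w c
    rw [cnt_word]
    have a1 : cnt (fun i => (h (w i)).1.1) c = (k - 1) * M := by
      rw [← hc1 c]
      exact Pool.Agent.N400.LFLOW.cnt_perm (fun x => (h x).1.1) w c
    have a2 : cnt (fun i => (h (w i)).1.2) c = (k - 1) * M := by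
      rw [← hc2 c]
      exact Pool.Agent.N400.LFLOW.cnt_perm (fun x => (h x).1.2) w c
    rw [a1, a2]
    ring
  have hbal : ∀ c, cnt f c = 2 * (k - 1) * M := by
    intro c
    have h1 := hf c
    rw [Fintype.card_prod, Fintype.card_fin, Fintype.card_bool] at h1
    have h2 : k * cnt f c = k * (2 * (k - 1) * M) := by
      rw [h1, hN]; ring
    exact Nat.eq_of_mul_eq_mul_left hk0 h2
  have hA : ∀ w : Equiv.Perm (Fin m),
      (univ.filter fun r : Equiv.Perm (Hf m) => ∀ x, f (r x) = word (fun i => h (w i)) x).card =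
        ((2 * (k - 1) * M).factorial) ^ k := by
    intro w
    rw [count_match f (word fun i => h (w i)) (exists_match _ _ fun i => by
      rw [hbal, hcw]),
      Finset.prod_congr rfl fun c _ => by rw [hbal c], Finset.prod_const, Finset.card_univ,
      Fintype.card_fin]
  set Rl : Equiv.Perm (Fin m) → Equiv.Perm (Hf m) → Prop := fun w r =>
    ∀ x, f (r x) = word (fun i => h (w i)) x with hRl
  have hdc := Finset.sum_card_bipartiteAbove_eq_sum_card_bipartiteBelow (s := univ) (t := univ) Rl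
  have h1 : ∀ w : Equiv.Perm (Fin m), ((univ : Finset (Equiv.Perm (Hf m))).bipartiteAbove
      Rl w).card = ((2 * (k - 1) * M).factorial) ^ k := by
    intro w
    rw [← hA w]
    congr 1
  rw [Finset.sum_congr rfl fun w _ => h1 w, Finset.sum_const, Finset.card_univ, Fintype.card_perm,
    Fintype.card_fin, smul_eq_mul] at hdc
  set Q : Finset (Equiv.Perm (Hf m)) :=
    univ.filter fun π : Equiv.Perm (Hf m) => ∀ i, f (π (i, false)) ≠ f (π (i, true)) with hQ
  have h3 : ∀ r : Equiv.Perm (Hf m),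
      ((univ : Finset (Equiv.Perm (Fin m))).bipartiteBelow Rl r).card ≤
        if r ∈ Q then M.factorial ^ (k * (k - 1)) else 0 := by
    intro r
    by_cases h4 : ((univ : Finset (Equiv.Perm (Fin m))).bipartiteBelow Rl r) = ∅
    · rw [h4, Finset.card_empty]
      exact Nat.zero_le _
    obtain ⟨w, hw⟩ := Finset.nonempty_iff_ne_empty.2 h4
    rw [Finset.mem_bipartiteBelow] at hw
    obtain ⟨-, hw⟩ := hw
    have hne : ∀ i, f (r (i, false)) ≠ f (r (i, true)) := by
      intro i
      rw [hw (i, false), hw (i, true)]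
      exact (h (w i)).2
    have hpQ : r ∈ Q := mem_filter.2 ⟨mem_univ _, hne⟩
    rw [if_pos hpQ]
    have h5 : (univ : Finset (Equiv.Perm (Fin m))).bipartiteBelow Rl r =
        univ.filter fun w : Equiv.Perm (Fin m) => ∀ i, h (w i) =
          (fun i => (⟨(f (r (i, false)), f (r (i, true))), hne i⟩ : Sp k)) i := by
      ext w'
      rw [Finset.mem_bipartiteBelow, mem_filter]
      refine and_congr_right fun _ => ?_
      constructor
      · intro a i
        apply Subtype.ext
        exact Prod.ext (a (i, false)).symm (a (i, true)).symm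
      · rintro a ⟨i, b⟩
        have := a i
        cases b
        · change f (r (i, false)) = (h (w' i)).1.1
          rw [this]
        · change f (r (i, true)) = (h (w' i)).1.2
          rw [this]
    have h5' : ∃ w : Equiv.Perm (Fin m), ∀ i, h (w i) =
        (fun i => (⟨(f (r (i, false)), f (r (i, true))), hne i⟩ : Sp k)) i := ⟨w, fun i => by
      apply Subtype.ext
      exact Prod.ext (hw (i, false)).symm (hw (i, true)).symm⟩
    rw [h5, count_match h (fun i => (⟨(f (r (i, false)), f (r (i, true))), hne i⟩ : Sp k)) h5',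
      Finset.prod_congr rfl fun c _ => by rw [hc c],
      Finset.prod_const, Finset.card_univ, ← Nat.card_eq_fintype_card, card_Sp]
  have h6 : ∑ r : Equiv.Perm (Hf m),
      ((univ : Finset (Equiv.Perm (Fin m))).bipartiteBelow Rl r).card ≤
        Q.card * M.factorial ^ (k * (k - 1)) := by
    refine (Finset.sum_le_sum fun p _ => h3 p).trans (le_of_eq ?_)
    rw [Finset.sum_ite_mem, Finset.univ_inter, Finset.sum_const, smul_eq_mul]
  rw [← hdc] at h6
  rw [mul_comm (M.factorial ^ _)]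
  exact h6

/-- **GS/LOWM** -/
theorem t_LOWM : S_LOWM := by
  intro k M m hk hN f hf
  have hF := proof_FACT
  have h0 := key k M m hk hN f hf
  set P : ℕ := (univ.filter fun π : Equiv.Perm (Hf m) =>
    ∀ i, f (π (i, false)) ≠ f (π (i, true))).card with hP
  set L := k * (k - 1) with hL
  set s := 2 * (k - 1) * M with hs
  have hk1 : 1 ≤ k - 1 := by omega
  have hks : k * s = 2 * m := by rw [hN, hL, hs]; ring
  have hLM : M * L = m := by rw [hN, hL]; ring
  have hkR : (k : ℝ) ≠ 0 := by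
    have : (0 : ℝ) < k := by exact_mod_cast (by omega : 0 < k)
    exact this.ne'
  have hsq : ((2 * m : ℕ) : ℝ) ^ 2 * (1 - 1 / (k : ℝ)) * M = m * (s : ℝ) ^ 2 := by
    have h1 : (((k - 1 : ℕ) : ℝ)) = (k : ℝ) - 1 := by
      rw [Nat.cast_sub (by omega)]
      norm_num
    rw [hN, hL, hs]
    push_cast
    rw [h1]
    field_simp
  have hone : (0 : ℝ) ≤ 1 - 1 / (k : ℝ) := by
    have : 1 / (k : ℝ) ≤ 1 := by
      rw [div_le_one (by exact_mod_cast (by omega : 0 < k))]
      exact_mod_cast (by omega : 1 ≤ k)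
    linarith
  have hm0 : (0 : ℝ) ≤ m := Nat.cast_nonneg m
  have hB1 : (1 : ℝ) ≤ 3 * (2 * (m : ℝ) + 1) := by linarith
  have hMN : M ≤ m := by
    rw [← hLM]
    have : 1 ≤ L := Nat.mul_pos (by omega) hk1
    exact Nat.le_mul_of_pos_right M this
  -- numbers
  have e1 : Real.exp (m : ℝ) = Real.exp (M : ℝ) ^ L := by
    rw [← Real.exp_nat_mul, ← hLM]
    push_cast
    ring_nf
  have e2 : Real.exp ((2 * m : ℕ) : ℝ) = Real.exp (s : ℝ) ^ k := by
    rw [← Real.exp_nat_mul, ← hks]
    push_cast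
    ring_nf
  have h1 : ((2 * m).factorial : ℝ) * Real.exp ((2 * m : ℕ) : ℝ) ≤
      3 * (2 * m + 1) * ((2 * m : ℕ) : ℝ) ^ (2 * m) := by
    have := (hF (2 * m)).2
    push_cast at this ⊢
    exact this
  have h2 : ((M.factorial : ℝ) * Real.exp M) ^ L ≤ (3 * (M + 1) * (M : ℝ) ^ M) ^ L :=
    pow_le_pow_left₀ (by positivity) (hF M).2 L
  have h3 : ((s : ℝ) ^ s) ^ k ≤ ((s.factorial : ℝ) * Real.exp s) ^ k :=
    pow_le_pow_left₀ (by positivity) (hF s).1 _
  have h3' : (m : ℝ) ^ m ≤ m.factorial * Real.exp m := (hF m).1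
  have h4 : ((2 * m : ℕ) : ℝ) ^ (2 * m) * (1 - 1 / (k : ℝ)) ^ m * (M : ℝ) ^ m =
      (m : ℝ) ^ m * ((s : ℝ) ^ s) ^ k := by
    have a1 : ((s : ℝ) ^ s) ^ k = ((s : ℝ) ^ 2) ^ m := by
      rw [← pow_mul, ← pow_mul, mul_comm s k, hks]
    rw [a1, ← mul_pow, ← hsq, mul_pow, mul_pow, ← pow_mul]
  have h5 : (3 * ((M : ℝ) + 1)) ^ L ≤ (3 * (2 * (m : ℝ) + 1)) ^ L := by
    refine pow_le_pow_left₀ (by positivity) ?_ L
    have : (M : ℝ) ≤ m := by exact_mod_cast hMN
    linarith
  have h8 : (m.factorial : ℝ) * ((s.factorial : ℝ) ^ k) ≤ (M.factorial : ℝ) ^ L * (P : ℝ) := by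
    exact_mod_cast h0
  have hE : (0 : ℝ) < Real.exp m * Real.exp ((2 * m : ℕ) : ℝ) := by positivity
  have h6 : ((2 * m).factorial : ℝ) * (1 - 1 / (k : ℝ)) ^ m * (M.factorial : ℝ) ^ L *
      (Real.exp m * Real.exp ((2 * m : ℕ) : ℝ)) ≤
      (3 * (2 * (m : ℝ) + 1)) ^ (L + 1) * ((m.factorial : ℝ) * (s.factorial : ℝ) ^ k) *
      (Real.exp m * Real.exp ((2 * m : ℕ) : ℝ)) := by
    calc ((2 * m).factorial : ℝ) * (1 - 1 / (k : ℝ)) ^ m * (M.factorial : ℝ) ^ L *
        (Real.exp m * Real.exp ((2 * m : ℕ) : ℝ))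
        = (((2 * m).factorial : ℝ) * Real.exp ((2 * m : ℕ) : ℝ)) * (1 - 1 / (k : ℝ)) ^ m *
          ((M.factorial : ℝ) * Real.exp M) ^ L := by
          rw [mul_pow, ← e1]
          ring
      _ ≤ (3 * (2 * m + 1) * ((2 * m : ℕ) : ℝ) ^ (2 * m)) * (1 - 1 / (k : ℝ)) ^ m *
          (3 * (M + 1) * (M : ℝ) ^ M) ^ L := by
          refine mul_le_mul (mul_le_mul_of_nonneg_right h1 (pow_nonneg hone _)) h2
            (by positivity) (mul_nonneg (by positivity) (pow_nonneg hone _))
      _ = (3 * (2 * m + 1)) * (3 * ((M : ℝ) + 1)) ^ L *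
          (((2 * m : ℕ) : ℝ) ^ (2 * m) * (1 - 1 / (k : ℝ)) ^ m * (M : ℝ) ^ m) := by
          rw [mul_pow, ← pow_mul (M : ℝ), hLM]
          ring
      _ ≤ (3 * (2 * m + 1)) * (3 * (2 * (m : ℝ) + 1)) ^ L *
          ((m.factorial * Real.exp m) * ((s.factorial : ℝ) * Real.exp s) ^ k) := by
          rw [h4]
          exact mul_le_mul (mul_le_mul_of_nonneg_left h5 (by positivity))
            (mul_le_mul h3' h3 (by positivity) (by positivity)) (by positivity)
            (by positivity)
      _ = _ := by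
          rw [mul_pow (s.factorial : ℝ), ← e2]
          ring
  have h7 := le_of_mul_le_mul_right h6 hE
  have h9 : ((2 * m).factorial : ℝ) * (1 - 1 / (k : ℝ)) ^ m * (M.factorial : ℝ) ^ L ≤
      (3 * (2 * (m : ℝ) + 1)) ^ (k ^ 2 + k) * (P : ℝ) * (M.factorial : ℝ) ^ L := by
    calc ((2 * m).factorial : ℝ) * (1 - 1 / (k : ℝ)) ^ m * (M.factorial : ℝ) ^ L
        ≤ (3 * (2 * (m : ℝ) + 1)) ^ (L + 1) * ((m.factorial : ℝ) * (s.factorial : ℝ) ^ k) := h7
      _ ≤ (3 * (2 * (m : ℝ) + 1)) ^ (k ^ 2 + k) * ((M.factorial : ℝ) ^ L * (P : ℝ)) := by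
          refine mul_le_mul (pow_le_pow_right₀ hB1 ?_) h8 (by positivity) (by positivity)
          have : L ≤ k ^ 2 := by
            rw [hL, sq]
            exact Nat.mul_le_mul_left k (Nat.sub_le k 1)
          omega
      _ = _ := by ring
  exact le_of_mul_le_mul_right h9 (by positivity)

end Pool.Agent.L0h60.GS
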